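import Pool.Agent.Lib.MP_953685_nt.Final

namespace Pool.Agent.Results.MP_953685_nt.GeneralLucas

open Pool.Agent.Lib.MP_953685_nt

/-- `U` and `V` at `(p-1)/4` for the parameters `(b, -m)`, `8 ∣ b`, `m` odd, in terms of
`c, d, x, y` and two quartic Jacobi symbols. The case `m = 1`, `μ = 1` is Q1. -/
theorem result (p : ℕ) [Fact p.Prime] (b m c d x y : ℤ) (π μ : GaussianInt)
    (hp : p % 4 = 1) (hb : 8 ∣ b) (hm : Odd m) (hπ : π.norm = p) (hμ : π * μ = ⟨c, d⟩)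
    (hcd : IsCoprime c d) (hxy : c ^ 2 + d ^ 2 = x ^ 2 + (m + b ^ 2 / 4) * y ^ 2)
    (hco : IsCoprime (c ^ 2 + d ^ 2) (m * y)) (hpx : ¬ (p : ℤ) ∣ x)
    (hc : c % 4 = 1) (hd2 : Even d) (hd : OddPartOne d) (hx : OddPartOne x) (hy : OddPartOne y) :
    (∃ (s t : ℤ) (j r : ℕ),
      J ⟨s * (c + b / 2 * y) + t * (x - d), s * (d + x) + t * (c - b / 2 * y)⟩ (m : GaussianInt)
        = gi ^ j ∧ J (⟨b / 2 * y, x⟩ * (y : GaussianInt) ^ 3) μ = gi ^ r) ∧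
    ∀ (s t : ℤ) (j r : ℕ),
      J ⟨s * (c + b / 2 * y) + t * (x - d), s * (d + x) + t * (c - b / 2 * y)⟩ (m : GaussianInt)
        = gi ^ j → J (⟨b / 2 * y, x⟩ * (y : GaussianInt) ^ 3) μ = gi ^ r →
      (U b (-m) ((p - 1) / 4) : ZMod p) =
          (((d : ZMod p) / c) ^ ((j : ℤ) - r + ex b m d x y) - (-(m : ZMod p)) ^ ((p - 1) / 4) *
            ((d : ZMod p) / c) ^ (-((j : ℤ) - r + ex b m d x y))) * (c * y) / (2 * d * x) ∧
      (V b (-m) ((p - 1) / 4) : ZMod p) =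
          ((d : ZMod p) / c) ^ ((j : ℤ) - r + ex b m d x y) + (-(m : ZMod p)) ^ ((p - 1) / 4) *
            ((d : ZMod p) / c) ^ (-((j : ℤ) - r + ex b m d x y)) :=
  final p b m c d x y π μ hp hb hm hπ hμ hcd hxy hco hpx hc hd2 hd hx hy

end Pool.Agent.Results.MP_953685_nt.GeneralLucas
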